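import Pool.Agent.Lib.CH10ce.Final4

set_option autoImplicit false

namespace Pool.Agent.Results.MP_10ce83_co.AdditiveFour

/-- For all `n ≥ 1` and `k ≥ 1`, every loopless digraph on `n` vertices in which each vertex has
out-degree at least `n / k` contains a directed cycle of length between `2` and `k + 4`. -/
theorem result :
    ∀ (n k : ℕ), 0 < n → 0 < k →
      ∀ G : Digraph (Fin n), (∀ v, ¬ G.Adj v v) →
        (∀ v, n ≤ k * {w | G.Adj v w}.ncard) →
          ∃ m : ℕ, 2 ≤ m ∧ m ≤ k + 4 ∧
            ∃ c : Fin m → Fin n, Function.Injective c ∧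
              ∀ i, G.Adj (c i) (c (finRotate m i)) := by
  intro n k hn hk G hloop hdeg
  exact Pool.Agent.CH10ce.girth_le4 n k hn hk G hloop hdeg

end Pool.Agent.Results.MP_10ce83_co.AdditiveFour
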